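import Pool.Agent.W_MP_84bb83_al.Main

/-!
# Saturated products of formations of finite groups have a saturated left factor
-/

set_option autoImplicit false

namespace Pool.Agent.Results.MP_84bb83_al.SaturatedLeftFactor

open Pool.Agent.W_MP_84bb83_al Function

/-- A class of groups. -/
abbrev GroupClass := (G : Type) → [Group G] → Prop

/-- A formation: a non-empty class of finite groups, closed under isomorphisms and quotients, such
that `G ⧸ M ∈ F` and `G ⧸ N ∈ F` imply `G ⧸ (M ⊓ N) ∈ F`. -/
structure IsFormation (F : GroupClass) : Prop where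
  finite : ∀ (G : Type) [Group G], F G → Finite G
  nonempty : ∃ (G : Type) (_ : Group G), F G
  iso : ∀ (A B : Type) [Group A] [Group B], Nonempty (A ≃* B) → F A → F B
  quotient : ∀ (G : Type) [Group G] (N : Subgroup G) [N.Normal], F G → F (G ⧸ N)
  inter : ∀ (G : Type) [Group G] [Finite G] (M N : Subgroup G) [M.Normal] [N.Normal],
    F (G ⧸ M) → F (G ⧸ N) → F (G ⧸ (M ⊓ N))

/-- The `H`-residual of `G`: the intersection of all normal subgroups `N` with `G ⧸ N ∈ H` (for a
formation `H` and a finite group `G` it is the smallest of them). -/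
noncomputable def residual (H : GroupClass) (G : Type) [Group G] : Subgroup G :=
  sInf {N | ∃ _ : N.Normal, H (G ⧸ N)}

/-- The product `M H`: the finite groups whose `H`-residual is in `M`. -/
def prod (M H : GroupClass) : GroupClass := fun G _ => Finite G ∧ M (residual H G)

/-- `G ⧸ Φ(G) ∈ F` implies `G ∈ F`, for every finite group `G`. -/
def IsSaturated (F : GroupClass) : Prop :=
  ∀ (G : Type) [Group G] [Finite G], F (G ⧸ frattini G) → F G

/-- `F ≠ (1)`: some group in `F` is not trivial. -/
def HasNontrivial (F : GroupClass) : Prop := ∃ (G : Type) (_ : Group G), Nontrivial G ∧ F G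

theorem IsFormation.isForm {F : GroupClass} (h : IsFormation F) : IsForm F where
  iso := h.iso
  quo := fun G _ _ N _ hG => h.quotient G N hG
  unit := by
    obtain ⟨G, _, hG⟩ := h.nonempty
    have h1 := h.quotient G (⊤ : Subgroup G) hG
    have : Subsingleton (G ⧸ (⊤ : Subgroup G)) := QuotientGroup.subsingleton_quotient_top
    let e : (G ⧸ (⊤ : Subgroup G)) ≃* Unit :=
      { toFun := fun _ => ()
        invFun := fun _ => 1
        left_inv := fun _ => Subsingleton.elim _ _
        right_inv := fun _ => rfl
        map_mul' := fun _ _ => rfl }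
    exact h.iso (G ⧸ (⊤ : Subgroup G)) Unit ⟨e⟩ h1
  sub := fun G _ _ N₁ N₂ _ _ h1 h2 => h.inter G N₁ N₂ h1 h2

/-- Let `M`, `H` be formations of finite groups whose product `M H` is saturated. Then there is a
saturated formation `L` with `L H = M H`, and `L ≠ (1)` unless `H` itself is saturated.

In particular every saturated formation with a non-trivial decomposition into a product of two
formations has a non-trivial decomposition in which one of the two factors is saturated. -/
theorem result (M H : GroupClass) (hM : IsFormation M) (hH : IsFormation H)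
    (hsat : IsSaturated (prod M H)) :
    ∃ L : GroupClass, IsFormation L ∧ IsSaturated L ∧
      (∀ (G : Type) [Group G], prod L H G ↔ prod M H G) ∧ (HasNontrivial L ∨ IsSaturated H) := by
  have fM := hM.isForm
  have fH := hH.isForm
  have hd : Dec (prod M H) M H := fun G _ _ => ⟨fun h => h.2, fun h => ⟨inferInstance, h⟩⟩
  have hF : QCl (prod M H) := by
    have hs : ∀ (A B : Type) [Group A] [Group B] (f : A →* B), Surjective f → prod M H A →
        prod M H B := by
      intro A B _ _ f hf h
      have := h.1
      have hB : Finite B := Finite.of_surjective f hf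
      refine ⟨hB, ?_⟩
      have h1 := fM.toQCl.surj (B := ((residual H A).map f : Subgroup B))
        ((f.comp (residual H A).subtype).codRestrict ((residual H A).map f)
          (fun x => ⟨x, x.2, rfl⟩)) (by rintro ⟨y, ⟨x, hx, rfl⟩⟩; exact ⟨⟨x, hx⟩, rfl⟩) h.2
      have h2 : (residual H A).map f = residual H B := fH.res_map f hf
      rw [h2] at h1
      exact h1
    exact { iso := fun A B _ _ ⟨e⟩ h => hs A B e.toMonoidHom e.surjective h
            quo := fun G _ _ N _ h => hs _ _ (QuotientGroup.mk' N)
              (QuotientGroup.mk'_surjective N) h }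
  have hform : IsForm (Mp M H) := isForm_Mp fM fH
  have hd' : Dec (prod M H) (Mp M H) H := dec_Mp fM hd
  refine ⟨Mp M H, ⟨fun G _ h => h.1, ⟨Unit, inferInstance, hform.unit⟩, hform.iso,
    fun G _ N _ h => ?_, fun G _ _ N₁ N₂ _ _ h1 h2 => hform.sub G N₁ N₂ h1 h2⟩, ?_, ?_, ?_⟩
  · have := h.1
    exact hform.quo G N h
  · intro A _ _ h
    exact sat_Mp fM fH hF hsat hd (Nat.card A) A rfl (frattini A) le_rfl ⟨inferInstance, h⟩
  · intro G _
    constructor
    · intro h
      have := h.1
      exact (hd' G).mpr h.2
    · intro h
      have := h.1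
      exact ⟨h.1, (hd' G).mp h⟩
  · by_cases hcase : ∀ (G : Type) [Group G] [Finite G], prod M H G → H G
    · right
      intro G _ _ h
      refine hcase G (hsat G ⟨inferInstance, ?_⟩)
      have h1 : residual H (G ⧸ frattini G) = ⊥ := fH.res_eq_bot.mpr h
      rw [h1]
      exact fM.of_subsingleton
    · left
      push Not at hcase
      obtain ⟨G, _, _, hG, hG'⟩ := hcase
      have hne : res H G ≠ ⊥ := fun h => hG' (fH.res_eq_bot.mp h)
      exact ⟨res H G, inferInstance, (Subgroup.nontrivial_iff_ne_bot _).mpr hne, (hd' G).mp hG⟩

end Pool.Agent.Results.MP_84bb83_al.SaturatedLeftFactor
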